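import Pool.Agent.H713R3.LDim.Count

/-!
Antichains on which a local realizer has large total multiplicity (helper732): the counting
argument of `Pool.Agent.H713R3.LDim.Count` (helper713) with slots counted at a reference tuple.
-/

set_option autoImplicit false

namespace Pool.Agent.Y732.LD

open Relation Pool.Agent.H713R3.LDim

theorem st00 {m : ℕ} (l : Fin m) : st l 0 0 = fun _ => 0 := by
  funext q
  unfold st
  split_ifs <;> rfl

theorem exists_hom' (w H k : ℕ) : ∃ N : ℕ, ∀ (ι : Type) (S : Sys w H k N ι) (μ : Pt w H → ℕ),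
    ∃ h : ℕ → ℕ, Hom S h ∧ ∀ (lam : Fin H) (i : Fin w) (m : Fin (k + 1)) (l : Fin (w * w))
      (a b a' b' : Fin (w * w) → ℕ), Good l a b → Good l a' b' →
      μ ⟨lam, i, h ∘ a⟩ ≤ m.val → μ ⟨lam, i, h ∘ a'⟩ ≤ m.val := by
  classical
  obtain ⟨N, hN⟩ := patRamsey (w * w) (4 * (w * w))
    ((Bool × Vx w H k × Vx w H k) ⊕ (Fin H × Fin w × Fin (k + 1)))
  refine ⟨N, fun ι S μ => ?_⟩
  obtain ⟨h, h1, h2, h3⟩ := hN (fun j _ a b => Sum.elim
    (fun j : Bool × Vx w H k × Vx w H k =>
      if j.1 then S.U0 j.2.1 j.2.2 a b else S.D0 j.2.1 j.2.2 a b)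
    (fun j : Fin H × Fin w × Fin (k + 1) => μ ⟨j.1, j.2.1, a⟩ ≤ j.2.2.val) j)
  refine ⟨h, ⟨h1, h2, ?_, ?_⟩, ?_⟩
  · intro v v' l a b hab h0
    rcases h3 (Sum.inl (true, v, v')) l with h4 | h4
    · intro a' b' h5
      simpa using h4 a' b' h5.1 h5.2.1 h5.2.2
    · have := h4 a b hab.1 hab.2.1 hab.2.2
      simp at this
      exact absurd h0 this
  · intro v v' l a b hab h0
    rcases h3 (Sum.inl (false, v, v')) l with h4 | h4
    · intro a' b' h5
      simpa using h4 a' b' h5.1 h5.2.1 h5.2.2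
    · have := h4 a b hab.1 hab.2.1 hab.2.2
      simp at this
      exact absurd h0 this
  · intro lam i m l a b a' b' hab hab' h0
    rcases h3 (Sum.inr (lam, i, m)) l with h4 | h4
    · exact h4 a' b' hab'.1 hab'.2.1 hab'.2.2
    · exact absurd h0 (h4 a b hab.1 hab.2.1 hab.2.2)

theorem card_slots {w k : ℕ} (M : Fin w → ℕ) :
    (Finset.univ.filter (fun p : Fin w × Fin k => p.2.val < M p.1)).card ≤ ∑ i, M i := by
  classical
  rw [Finset.card_filter, Fintype.sum_prod_type]
  refine Finset.sum_le_sum fun i _ => ?_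
  rw [← Finset.card_filter]
  calc (Finset.univ.filter (fun y : Fin k => y.val < M i)).card
      = ((Finset.univ.filter (fun y : Fin k => y.val < M i)).image Fin.val).card :=
        (Finset.card_image_of_injective _ Fin.val_injective).symm
    _ ≤ (Finset.range (M i)).card := by
        refine Finset.card_le_card fun x hx => ?_
        rw [Finset.mem_image] at hx
        obtain ⟨y, hy, rfl⟩ := hx
        rw [Finset.mem_filter] at hy
        exact Finset.mem_range.2 hy.2
    _ = M i := Finset.card_range _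

theorem no_sys' (w : ℕ) (hw : 2 ≤ w) :
    ∃ N : ℕ, ∀ (ι : Type) (S : Sys w (w * (w - 1) + 2) (w * (w - 1)) N ι)
      (μ : Pt w (w * (w - 1) + 2) → ℕ), (∀ x α i, S.G x α = some i → α.val < μ x) →
      ∃ (lam : Fin (w * (w - 1) + 2)) (a : Fin (w * w) → ℕ), (∀ q, a q < N) ∧
        w * (w - 1) + 1 ≤ ∑ i : Fin w, μ ⟨lam, i, a⟩ := by
  classical
  obtain ⟨N, hN⟩ := exists_hom' w (w * (w - 1) + 2) (w * (w - 1))
  refine ⟨N, fun ι S μ hμ => ?_⟩
  obtain ⟨h, hh, hm⟩ := hN ι S μ
  by_contra hcon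
  push Not at hcon
  set a0 : Fin (w * w) → ℕ := tup (fun _ => 0) with ha0
  have href : ∀ q, (h ∘ a0) q < N := fun q => hh.hN _ (tup_lt (fun _ => Nat.zero_le _) q)
  have hT : ∀ lam, ∑ i : Fin w, μ ⟨lam, i, h ∘ a0⟩ ≤ w * (w - 1) := fun lam => by
    have := hcon lam (h ∘ a0) href
    omega
  have hsrc0 : ∀ (v v' : Vx w (w * (w - 1) + 2) (w * (w - 1))) (l : Fin (w * w)),
      S.D h v v' l → v.2.2.val < μ ⟨v.1, v.2.1, h ∘ a0⟩ := by
    intro v v' l hD
    have g01 := good_st (m := w * w) l (show 0 < 1 by omega) (by omega)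
    rw [st00] at g01
    obtain ⟨i, h1, h2, h3⟩ := hD _ _ g01
    exact hμ _ _ _ h1
  have hsnk0 : ∀ (v v' : Vx w (w * (w - 1) + 2) (w * (w - 1))) (l : Fin (w * w)),
      S.D h v v' l → v'.2.2.val < μ ⟨v'.1, v'.2.1, h ∘ a0⟩ := by
    intro v v' l hD
    have g01 := good_st (m := w * w) l (show 0 < 1 by omega) (by omega)
    have g12 := good_st (m := w * w) l (show 1 < 2 by omega) (by omega)
    rw [st00] at g01
    obtain ⟨i, h1, h2, h3⟩ := hD _ _ g01
    have h4 := hμ _ _ _ h2
    by_contra hc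
    push Not at hc
    have h5 := hm v'.1 v'.2.1 ⟨v'.2.2.val, by have := v'.2.2.isLt; omega⟩ l _ _ _ _ g01 g12 hc
    have h6 : v'.2.2.val < μ ⟨v'.1, v'.2.1, h ∘ tup (st l 0 1)⟩ := h4
    simp only at h5
    omega
  set M : ℕ → Fin w → ℕ := fun lam i =>
    if hl : lam < w * (w - 1) + 2 then μ ⟨⟨lam, hl⟩, i, h ∘ a0⟩ else 0 with hM
  have hMs : ∀ lam, ∑ i : Fin w, M lam i ≤ w * (w - 1) := by
    intro lam
    simp only [hM]
    by_cases hl : lam < w * (w - 1) + 2
    · simp only [hl, dif_pos]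
      exact hT ⟨lam, hl⟩
    · simp [hl]
  set used : ℕ → Finset (Fin w × Fin (w * (w - 1))) := fun lam =>
    Finset.univ.filter (fun p => p.2.val < M lam p.1) with hused
  have hucard : ∀ lam, (used lam).card ≤ w * (w - 1) := fun lam =>
    (card_slots (M lam)).trans (hMs lam)
  have hk : 0 < w * (w - 1) := Nat.mul_pos (by omega) (by omega)
  have hex : ∀ (lam : ℕ) (i j : Fin w), ∃ α β : Fin (w * (w - 1)),
      ∀ (h1 : lam + 1 < w * (w - 1) + 2), i ≠ j →
        S.D h (⟨lam, by omega⟩, i, α) (⟨lam + 1, h1⟩, j, β) (lev i j) := by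
    intro lam i j
    by_cases h1 : lam + 1 < w * (w - 1) + 2
    · by_cases hij : i ≠ j
      · obtain ⟨α, β, h2⟩ := hh.exists_D h1 hij
        exact ⟨α, β, fun _ _ => h2⟩
      · exact ⟨⟨0, hk⟩, ⟨0, hk⟩, fun _ h3 => absurd h3 hij⟩
    · exact ⟨⟨0, hk⟩, ⟨0, hk⟩, fun h3 _ => absurd h3 h1⟩
  choose A B hAB using hex
  set src : ℕ → Finset (Fin w × Fin (w * (w - 1))) := fun lam =>
    (Finset.univ : Finset (Fin w)).offDiag.image (fun e => (e.1, A lam e.1 e.2)) with hsrc
  set snk : ℕ → Finset (Fin w × Fin (w * (w - 1))) := fun lam =>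
    (Finset.univ : Finset (Fin w)).offDiag.image (fun e => (e.2, B lam e.1 e.2)) with hsnk
  have hcard : (Finset.univ : Finset (Fin w)).offDiag.card = w * (w - 1) := by
    rw [Finset.offDiag_card, Finset.card_univ, Fintype.card_fin, Nat.mul_sub, Nat.mul_one]
  have hsrcu : ∀ lam, lam + 1 < w * (w - 1) + 2 → src lam ⊆ used lam := by
    intro lam h1 p hp
    obtain ⟨e, he, rfl⟩ := Finset.mem_image.mp hp
    have hne : e.1 ≠ e.2 := (Finset.mem_offDiag.mp he).2.2
    have h2 := hsrc0 _ _ _ (hAB lam e.1 e.2 h1 hne)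
    simp only [hused, Finset.mem_filter, Finset.mem_univ, true_and, hM]
    rw [dif_pos (show lam < w * (w - 1) + 2 by omega)]
    exact h2
  have hsnku : ∀ lam, lam + 1 < w * (w - 1) + 2 → snk lam ⊆ used (lam + 1) := by
    intro lam h1 p hp
    obtain ⟨e, he, rfl⟩ := Finset.mem_image.mp hp
    have hne : e.1 ≠ e.2 := (Finset.mem_offDiag.mp he).2.2
    have h2 := hsnk0 _ _ _ (hAB lam e.1 e.2 h1 hne)
    simp only [hused, Finset.mem_filter, Finset.mem_univ, true_and, hM]
    rw [dif_pos h1]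
    exact h2
  have hforest : ∀ lam, lam + 1 < w * (w - 1) + 2 →
      w * (w - 1) + 1 ≤ (src lam).card + (snk lam).card := by
    intro lam h1
    have := hh.forest_layer h1 hw (A lam) (B lam) (fun i j hij => hAB lam i j h1 hij)
    rw [hcard] at this
    exact this
  have hdisj : ∀ lam, lam + 1 + 1 < w * (w - 1) + 2 → Disjoint (src (lam + 1)) (snk lam) := by
    intro lam h1
    rw [Finset.disjoint_left]
    intro p hp1 hp2
    obtain ⟨e, he, rfl⟩ := Finset.mem_image.mp hp1
    obtain ⟨e', he', hp2⟩ := Finset.mem_image.mp hp2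
    have hne : e.1 ≠ e.2 := (Finset.mem_offDiag.mp he).2.2
    have hne' : e'.1 ≠ e'.2 := (Finset.mem_offDiag.mp he').2.2
    have hD := hAB (lam + 1) e.1 e.2 h1 hne
    have hD' := hAB lam e'.1 e'.2 (by omega) hne'
    rw [hp2] at hD'
    refine hh.not_both (u := (⟨lam, by omega⟩, e'.1, A lam e'.1 e'.2)) ?_ hD' hD
    show lam + 2 ≤ lam + 1 + 1
    omega
  have hclaim : ∀ lam, lam + 1 < w * (w - 1) + 2 → lam + 1 ≤ (snk lam).card := by
    intro lam
    induction lam with
    | zero =>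
      intro h1
      have h2 := hforest 0 h1
      have h3 := (Finset.card_le_card (hsrcu 0 h1)).trans (hucard 0)
      omega
    | succ n ih =>
      intro h1
      have h2 := hforest (n + 1) h1
      have h3 := ih (by omega)
      have h4 := Finset.card_union_of_disjoint (hdisj n h1)
      have h5 := (Finset.card_le_card (Finset.union_subset (hsrcu (n + 1) h1)
        (hsnku n (by omega)))).trans (hucard (n + 1))
      omega
  have h6 := hclaim (w * (w - 1)) (by omega)
  have h7 := (Finset.card_le_card (hsnku (w * (w - 1)) (by omega))).trans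
    (hucard (w * (w - 1) + 1))
  omega

end Pool.Agent.Y732.LD
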