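import Pool.Agent.Y732.LD.VSM2

set_option autoImplicit false

/-!
LD project (helper745), VSM: the weighted mean square of the local sums over the zeros minus the main term.
-/

namespace Pool.Agent.Y732.LD

open Filter Topology MeasureTheory Complex Pool.Agent.Y745.SW Pool.Agent.Y745.LD Pool.Agent.Y274.SW

theorem t_VSM (hVMR : P_VMR) (hVMS : P_VMS) (hEFU : P_EFU) : P_VSM := by
  intro κ c hc0 hc1
  obtain ⟨A0, hA0⟩ := hVMS κ c hc0 hc1
  refine ⟨A0, fun A hA ε hε hε1 => ?_⟩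
  obtain ⟨C, hC, hM⟩ := hA0 A hA
  obtain ⟨C1, hC1, hE⟩ := hEFU ε hε hε1
  have hk := c1_pos
  set D : ℝ := 1734 + 111 * C with hD
  have hD0 : 0 < D := by positivity
  refine ⟨3 + 6 * D + 12 * D * c1, by nlinarith [mul_pos hD0 hk], ?_⟩
  intro cc C0
  have hLc : Tendsto (fun T : ℝ => Real.log T ^ c) atTop atTop :=
    (tendsto_rpow_atTop hc0).comp Real.tendsto_log_atTop
  filter_upwards [weighted κ c A ε hc0 hc1 hε hε1 hVMR C hC hM, hE cc C0,
    hLc.eventually_ge_atTop (C1 * (1 + |C0|)), Real.tendsto_log_atTop.eventually_ge_atTop 1,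
    (Real.isLittleO_log_id_atTop.bound (by norm_num : (0 : ℝ) < 1 / 4)),
    eventually_ge_atTop (1 : ℝ)] with T hw hE' hlc hL1 h6 hT1
  intro U1 U2 hEFD B K a u x hBc hBe hBK ha1 haL hu0 hu1 hx
  have hT : 0 < T := by linarith
  set L := Real.log T with hL
  have hL0 : 0 < L := by linarith
  have h6' : 4 * L ≤ T := by
    have : |L| ≤ 1 / 4 * |T| := h6
    rw [abs_of_pos hL0, abs_of_pos hT] at this
    linarith
  have hT12 : T + 2 * L ≤ 2 * T - 2 * L := by linarith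
  have ha0 : 0 < a := by linarith
  have hK : 0 ≤ K := (abs_nonneg _).trans (hBK 0)
  have hIV := IV_nonneg κ c A T hT.le
  have hcc := hEFD.hc
  have hB2 : 0 ≤ ∫ ξ in (-1:ℝ)..1, B ξ ^ 2 :=
    intervalIntegral.integral_nonneg (by norm_num) fun ξ _ => sq_nonneg _
  set Q : ℝ := K * L ^ c / a with hQ
  have hQ0 : 0 ≤ Q := by positivity
  set S : ℝ := 2 * c1 * (1 + u / a) * ∫ ξ in (-1:ℝ)..1, B ξ ^ 2 with hS
  have hS0 : 0 ≤ S := by positivity
  have hKa : K / a * L ^ c = Q := by rw [hQ]; ring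
  -- the two prime sums
  have m1 := hw cc (fun n => Gp B a u (Real.log n)) (K / a) S x hcc
    (fun n => Gp_abs B K a u _ hBK ha0) (sum_Gp2 B a u hBc ha1 hu0 _)
  have m2 := hw cc (fun n => Gm B a u (Real.log n)) (K / a) S x hcc
    (fun n => Gm_abs B K a u _ hBK ha0) (sum_Gm2 B a u hBc ha1 hu0 _)
  rw [hKa] at m1 m2
  set F1 : ℝ → ℂ := DD (XT ε T) (bb cc (fun n => Gp B a u (Real.log n))) with hF1
  set F2 : ℝ → ℂ := DD (XT ε T) (bb cc (fun n => Gm B a u (Real.log n))) with hF2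
  have hF1c : Continuous F1 := DD_cont _ _
  have hF2c : Continuous F2 := DD_cont _ _
  have hVc := V_cont κ c A T
  have hR0 : 0 ≤ (3 + 6 * D + 12 * D * c1) * IV κ c A T *
      ((1 + u / a) * (∫ ξ in (-1:ℝ)..1, B ξ ^ 2) + Q ^ 2) := by positivity
  by_cases hint : IntervalIntegrable (fun t : ℝ => V κ c A T t * ‖St B a U1 U2 u (t + x) -
      cexp (I * u * (t + x : ℝ)) * (Mu B a L u : ℝ)‖ ^ 2) volume (T + 2 * L) (2 * T - 2 * L)
  swap
  · rw [intervalIntegral.integral_undef hint]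
    exact hR0
  have hcx : Continuous fun t : ℝ => t + x := continuous_id.add continuous_const
  have k0 : Continuous fun t : ℝ => V κ c A T t * (3 * Q ^ 2) := hVc.mul continuous_const
  have k1 : Continuous fun t : ℝ => V κ c A T t * ‖F1 (t + x)‖ ^ 2 :=
    hVc.mul ((hF1c.comp hcx).norm.pow 2)
  have k2 : Continuous fun t : ℝ => V κ c A T t * ‖F2 (t + x)‖ ^ 2 :=
    hVc.mul ((hF2c.comp hcx).norm.pow 2)
  have hpt : ∀ t ∈ Set.Icc (T + 2 * L) (2 * T - 2 * L), V κ c A T t * ‖St B a U1 U2 u (t + x) -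
      cexp (I * u * (t + x : ℝ)) * (Mu B a L u : ℝ)‖ ^ 2 ≤
      V κ c A T t * (3 * Q ^ 2) + 3 * (V κ c A T t * ‖F1 (t + x)‖ ^ 2) +
        3 * (V κ c A T t * ‖F2 (t + x)‖ ^ 2) := by
    intro t ht
    have hx' := abs_le.1 hx
    have h8 := hE' U1 U2 hEFD B K a hBc hBe hBK ha1 haL (t + x) u (by linarith [ht.1])
      (by linarith [ht.2]) hu0 hu1
    have h9 : C1 * (1 + |C0|) * K / a ≤ Q := by
      rw [hQ]
      refine div_le_div_of_nonneg_right ?_ ha0.le
      rw [mul_comm K]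
      exact mul_le_mul_of_nonneg_right hlc hK
    have e2 : ‖cexp (I * u * (t + x : ℝ))‖ = 1 := by
      rw [Complex.norm_exp]
      simp
    have e1 : St B a U1 U2 u (t + x) - cexp (I * u * (t + x : ℝ)) * (Mu B a L u : ℝ) =
        (St B a U1 U2 u (t + x) - cexp (I * u * (t + x : ℝ)) * ((Mu B a L u : ℝ) -
          DPp cc B a u (XT ε T) (t + x) - DPm cc B a u (XT ε T) (t + x))) -
        cexp (I * u * (t + x : ℝ)) * DPp cc B a u (XT ε T) (t + x) -
        cexp (I * u * (t + x : ℝ)) * DPm cc B a u (XT ε T) (t + x) := by ring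
    have h10 : ‖St B a U1 U2 u (t + x) - cexp (I * u * (t + x : ℝ)) * (Mu B a L u : ℝ)‖ ≤
        Q + ‖F1 (t + x)‖ + ‖F2 (t + x)‖ := by
      rw [e1]
      refine (norm_sub_le _ _).trans ?_
      refine add_le_add ((norm_sub_le _ _).trans (add_le_add (h8.trans h9) ?_)) ?_
      · rw [norm_mul, e2, one_mul, DPp_eq]
        exact le_rfl
      · rw [norm_mul, e2, one_mul, DPm_norm]
        exact le_rfl
    have h11 := sq_three _ _ _ _ (norm_nonneg _) h10
    calc V κ c A T t * ‖St B a U1 U2 u (t + x) -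
          cexp (I * u * (t + x : ℝ)) * (Mu B a L u : ℝ)‖ ^ 2
        ≤ V κ c A T t * (3 * (Q ^ 2 + ‖F1 (t + x)‖ ^ 2 + ‖F2 (t + x)‖ ^ 2)) :=
          mul_le_mul_of_nonneg_left h11 (V_nonneg _ _ _ _ _)
      _ = V κ c A T t * (3 * Q ^ 2) + 3 * (V κ c A T t * ‖F1 (t + x)‖ ^ 2) +
        3 * (V κ c A T t * ‖F2 (t + x)‖ ^ 2) := by ring
  have kk : Continuous fun t : ℝ => V κ c A T t * (3 * Q ^ 2) +
      3 * (V κ c A T t * ‖F1 (t + x)‖ ^ 2) + 3 * (V κ c A T t * ‖F2 (t + x)‖ ^ 2) :=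
    (k0.add (continuous_const.mul k1)).add (continuous_const.mul k2)
  calc ∫ t in (T + 2 * L)..(2 * T - 2 * L), V κ c A T t * ‖St B a U1 U2 u (t + x) -
        cexp (I * u * (t + x : ℝ)) * (Mu B a L u : ℝ)‖ ^ 2
      ≤ ∫ t in (T + 2 * L)..(2 * T - 2 * L), (V κ c A T t * (3 * Q ^ 2) +
        3 * (V κ c A T t * ‖F1 (t + x)‖ ^ 2) + 3 * (V κ c A T t * ‖F2 (t + x)‖ ^ 2)) :=
        intervalIntegral.integral_mono_on hT12 hint (kk.intervalIntegrable _ _) hpt
    _ ≤ ∫ t in T..(2 * T), (V κ c A T t * (3 * Q ^ 2) +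
        3 * (V κ c A T t * ‖F1 (t + x)‖ ^ 2) + 3 * (V κ c A T t * ‖F2 (t + x)‖ ^ 2)) := by
        refine intervalIntegral.integral_mono_interval (by linarith) hT12 (by linarith) ?_
          (kk.intervalIntegrable _ _)
        refine Filter.Eventually.of_forall fun t => ?_
        have hV := V_nonneg κ c A T t
        simp only [Pi.zero_apply]
        positivity
    _ = IV κ c A T * (3 * Q ^ 2) + 3 * (∫ t in T..(2 * T), V κ c A T t * ‖F1 (t + x)‖ ^ 2) +
        3 * (∫ t in T..(2 * T), V κ c A T t * ‖F2 (t + x)‖ ^ 2) := by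
        have j0 := k0.intervalIntegrable (μ := volume) T (2 * T)
        have j1 := k1.intervalIntegrable (μ := volume) T (2 * T)
        have j2 := k2.intervalIntegrable (μ := volume) T (2 * T)
        rw [intervalIntegral.integral_add (j0.add (j1.const_mul 3)) (j2.const_mul 3),
          intervalIntegral.integral_add j0 (j1.const_mul 3),
          intervalIntegral.integral_const_mul, intervalIntegral.integral_const_mul,
          intervalIntegral.integral_mul_const]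
        rfl
    _ ≤ IV κ c A T * (3 * Q ^ 2) + 3 * (D * IV κ c A T * (S + Q ^ 2)) +
        3 * (D * IV κ c A T * (S + Q ^ 2)) := by linarith
    _ = 3 * (IV κ c A T * Q ^ 2) + 6 * D * (IV κ c A T * Q ^ 2) +
        12 * D * c1 * (IV κ c A T * ((1 + u / a) * ∫ ξ in (-1:ℝ)..1, B ξ ^ 2)) := by
        rw [hS]
        ring
    _ ≤ (3 + 6 * D + 12 * D * c1) * IV κ c A T *
        ((1 + u / a) * (∫ ξ in (-1:ℝ)..1, B ξ ^ 2) + Q ^ 2) := by
        have g1 : 0 ≤ IV κ c A T * Q ^ 2 := by positivity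
        have g2 : 0 ≤ IV κ c A T * ((1 + u / a) * ∫ ξ in (-1:ℝ)..1, B ξ ^ 2) := by positivity
        have g3 : 0 ≤ D * c1 := by positivity
        have g4 : (3 + 6 * D + 12 * D * c1) * IV κ c A T *
            ((1 + u / a) * (∫ ξ in (-1:ℝ)..1, B ξ ^ 2) + Q ^ 2) =
            (3 + 6 * D + 12 * D * c1) * (IV κ c A T * Q ^ 2) + (3 + 6 * D + 12 * D * c1) *
            (IV κ c A T * ((1 + u / a) * ∫ ξ in (-1:ℝ)..1, B ξ ^ 2)) := by ring
        rw [g4]
        have g5 : 0 ≤ 12 * (D * c1) * (IV κ c A T * Q ^ 2) := by positivity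
        have g6 : 0 ≤ (3 + 6 * D) * (IV κ c A T * ((1 + u / a) * ∫ ξ in (-1:ℝ)..1, B ξ ^ 2)) := by
          positivity
        linarith

end Pool.Agent.Y732.LD
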