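import Pool.Agent.Y745.LD.DefsB
import Pool.Agent.Y274.SW.SM

set_option autoImplicit false

/-!
LD project (helper745), VSM: the coefficients of the prime sums.
-/

namespace Pool.Agent.Y732.LD

open Filter Topology MeasureTheory Complex Pool.Agent.Y745.SW Pool.Agent.Y745.LD Pool.Agent.Y274.SW

noncomputable section

/-! ### the coefficients -/

lemma sqrt2pi_pos : 0 < Real.sqrt (2 * Real.pi) := by positivity

lemma cs_bound (B h : ℝ → ℝ) (a : ℝ) (ha : 0 < a) (hB : Continuous B) (hm : Measurable h)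
    (h0 : ∀ ξ, 0 ≤ h ξ) (h1 : ∀ ξ, |h ξ| ≤ 1)
    (hJ : ∫ ξ in (-1:ℝ)..1, h ξ ≤ Real.sqrt (2 * Real.pi) / a) :
    (1 / Real.sqrt (2 * Real.pi) * ∫ ξ in (-1:ℝ)..1, B ξ * h ξ) ^ 2 ≤
      1 / (a * Real.sqrt (2 * Real.pi)) * ∫ ξ in (-1:ℝ)..1, B ξ ^ 2 * h ξ := by
  have hi : IntervalIntegrable h volume (-1) 1 := ii_of_bdd hm 1 h1 _ _
  have hiB : IntervalIntegrable (fun ξ => B ξ * h ξ) volume (-1) 1 :=
    hi.continuousOn_mul hB.continuousOn
  have hiB2 : IntervalIntegrable (fun ξ => B ξ ^ 2 * h ξ) volume (-1) 1 :=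
    hi.continuousOn_mul (hB.pow 2).continuousOn
  set J : ℝ := ∫ ξ in (-1:ℝ)..1, h ξ with hJd
  set I : ℝ := ∫ ξ in (-1:ℝ)..1, B ξ * h ξ with hId
  set Q : ℝ := ∫ ξ in (-1:ℝ)..1, B ξ ^ 2 * h ξ with hQd
  set Jm : ℝ := Real.sqrt (2 * Real.pi) / a with hJm
  have hs := sqrt2pi_pos
  have hJm0 : 0 < Jm := by positivity
  have key : 0 ≤ Q - 2 * (I / Jm) * I + (I / Jm) ^ 2 * J := by
    have e1 : ∫ ξ in (-1:ℝ)..1, ((B ξ - I / Jm) ^ 2 * h ξ) =
        Q - 2 * (I / Jm) * I + (I / Jm) ^ 2 * J := by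
      have e2 : ∀ ξ, (B ξ - I / Jm) ^ 2 * h ξ =
          (B ξ ^ 2 * h ξ - (2 * (I / Jm)) * (B ξ * h ξ)) + (I / Jm) ^ 2 * h ξ := by
        intro ξ
        ring
      simp only [e2]
      rw [intervalIntegral.integral_add (hiB2.sub (hiB.const_mul _)) (hi.const_mul _),
        intervalIntegral.integral_sub hiB2 (hiB.const_mul _),
        intervalIntegral.integral_const_mul, intervalIntegral.integral_const_mul]
    rw [← e1]
    exact intervalIntegral.integral_nonneg (by norm_num) fun ξ _ =>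
      mul_nonneg (sq_nonneg _) (h0 ξ)
  have h2 : (I / Jm) ^ 2 * J ≤ (I / Jm) ^ 2 * Jm :=
    mul_le_mul_of_nonneg_left hJ (sq_nonneg _)
  have h3 : (I / Jm) ^ 2 * Jm = I ^ 2 / Jm := by field_simp
  have h4 : 2 * (I / Jm) * I = 2 * (I ^ 2 / Jm) := by ring
  have h5 : I ^ 2 / Jm ≤ Q := by
    rw [h3] at h2
    rw [h4] at key
    linarith
  rw [div_le_iff₀ hJm0] at h5
  calc (1 / Real.sqrt (2 * Real.pi) * I) ^ 2 = (1 / Real.sqrt (2 * Real.pi)) ^ 2 * I ^ 2 := by ring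
    _ ≤ (1 / Real.sqrt (2 * Real.pi)) ^ 2 * (Q * Jm) :=
        mul_le_mul_of_nonneg_left h5 (by positivity)
    _ = 1 / (a * Real.sqrt (2 * Real.pi)) * Q := by
        rw [hJm]
        field_simp

lemma Gp_eq_hp (B : ℝ → ℝ) (a u y : ℝ) :
    Gp B a u y = 1 / Real.sqrt (2 * Real.pi) * ∫ ξ in (-1:ℝ)..1, B ξ * hp a u y ξ := by
  unfold Gp
  congr 1
  refine intervalIntegral.integral_congr fun ξ _ => ?_
  simp only [hp]
  split_ifs <;> simp

lemma Gm_eq_hm (B : ℝ → ℝ) (a u y : ℝ) :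
    Gm B a u y = 1 / Real.sqrt (2 * Real.pi) * ∫ ξ in (-1:ℝ)..1, B ξ * hm a u y ξ := by
  unfold Gm
  congr 1
  refine intervalIntegral.integral_congr fun ξ _ => ?_
  simp only [hm]
  split_ifs <;> simp

lemma Gp_sq2 (B : ℝ → ℝ) (a u y : ℝ) (hB : Continuous B) (ha : 0 < a) :
    Gp B a u y ^ 2 ≤ 1 / (a * Real.sqrt (2 * Real.pi)) * ∫ ξ in (-1:ℝ)..1, B ξ ^ 2 * hp a u y ξ := by
  rw [Gp_eq_hp]
  exact cs_bound B _ a ha hB (hp_meas a u y) (hp_nonneg a u y) (hp_abs a u y) (hp_int a u y ha)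

lemma Gm_sq2 (B : ℝ → ℝ) (a u y : ℝ) (hB : Continuous B) (ha : 0 < a) :
    Gm B a u y ^ 2 ≤ 1 / (a * Real.sqrt (2 * Real.pi)) * ∫ ξ in (-1:ℝ)..1, B ξ ^ 2 * hm a u y ξ := by
  rw [Gm_eq_hm]
  exact cs_bound B _ a ha hB (hm_meas a u y) (hm_nonneg a u y) (hm_abs a u y) (hm_int a u y ha)

lemma abs_bound (B h : ℝ → ℝ) (K a : ℝ) (ha : 0 < a) (hB : ∀ ξ, |B ξ| ≤ K) (hm : Measurable h)
    (h0 : ∀ ξ, 0 ≤ h ξ) (h1 : ∀ ξ, |h ξ| ≤ 1)
    (hJ : ∫ ξ in (-1:ℝ)..1, h ξ ≤ Real.sqrt (2 * Real.pi) / a) :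
    |1 / Real.sqrt (2 * Real.pi) * ∫ ξ in (-1:ℝ)..1, B ξ * h ξ| ≤ K / a := by
  have hi : IntervalIntegrable h volume (-1) 1 := ii_of_bdd hm 1 h1 _ _
  have hK : 0 ≤ K := (abs_nonneg _).trans (hB 0)
  have hs := sqrt2pi_pos
  have h2 : |∫ ξ in (-1:ℝ)..1, B ξ * h ξ| ≤ ∫ ξ in (-1:ℝ)..1, K * h ξ := by
    rw [← Real.norm_eq_abs]
    refine intervalIntegral.norm_integral_le_of_norm_le (by norm_num : (-1:ℝ) ≤ 1)
      (Filter.Eventually.of_forall fun ξ _ => ?_) (hi.const_mul K)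
    rw [Real.norm_eq_abs, abs_mul, abs_of_nonneg (h0 ξ)]
    exact mul_le_mul_of_nonneg_right (hB ξ) (h0 ξ)
  rw [intervalIntegral.integral_const_mul] at h2
  rw [abs_mul, abs_of_pos (by positivity : 0 < 1 / Real.sqrt (2 * Real.pi))]
  calc 1 / Real.sqrt (2 * Real.pi) * |∫ ξ in (-1:ℝ)..1, B ξ * h ξ|
      ≤ 1 / Real.sqrt (2 * Real.pi) * (K * (Real.sqrt (2 * Real.pi) / a)) :=
        mul_le_mul_of_nonneg_left (h2.trans (mul_le_mul_of_nonneg_left hJ hK)) (by positivity)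
    _ = K / a := by field_simp

lemma Gp_abs (B : ℝ → ℝ) (K a u y : ℝ) (hB : ∀ ξ, |B ξ| ≤ K) (ha : 0 < a) :
    |Gp B a u y| ≤ K / a := by
  rw [Gp_eq_hp]
  exact abs_bound B _ K a ha hB (hp_meas a u y) (hp_nonneg a u y) (hp_abs a u y) (hp_int a u y ha)

lemma Gm_abs (B : ℝ → ℝ) (K a u y : ℝ) (hB : ∀ ξ, |B ξ| ≤ K) (ha : 0 < a) :
    |Gm B a u y| ≤ K / a := by
  rw [Gm_eq_hm]
  exact abs_bound B _ K a ha hB (hm_meas a u y) (hm_nonneg a u y) (hm_abs a u y) (hm_int a u y ha)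

/-- the sum over the coefficients, from a pointwise bound -/
lemma sum_G2 (B : ℝ → ℝ) (hB : Continuous B) (G : ℝ → ℝ) (h : ℝ → ℝ → ℝ) (a V : ℝ) (ha : 1 ≤ a)
    (hV : 0 ≤ V) (X : ℕ)
    (hG : ∀ y, G y ^ 2 ≤ 1 / (a * Real.sqrt (2 * Real.pi)) * ∫ ξ in (-1:ℝ)..1, B ξ ^ 2 * h y ξ)
    (hi : ∀ y, IntervalIntegrable (h y) volume (-1) 1)
    (hh : ∀ ξ ∈ Set.Icc (-1:ℝ) 1, ∑ n ∈ Finset.Icc 1 X, ArithmeticFunction.vonMangoldt n ^ 2 / n *
      h (Real.log n) ξ ≤ 5 * Real.exp 2 * c0 * (1 + V)) :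
    ∑ n ∈ Finset.Icc 1 X, ArithmeticFunction.vonMangoldt n ^ 2 / n * G (Real.log n) ^ 2 ≤
      c1 * ((1 + V) / a) * ∫ ξ in (-1:ℝ)..1, B ξ ^ 2 := by
  have ha0 : 0 < a := by linarith
  have hs : 1 ≤ Real.sqrt (2 * Real.pi) := by
    rw [Real.one_le_sqrt]
    nlinarith [Real.pi_gt_three]
  have hc0 := c0_pos
  have hc1 := c1_pos
  have hB2 : 0 ≤ ∫ ξ in (-1:ℝ)..1, B ξ ^ 2 :=
    intervalIntegral.integral_nonneg (by norm_num) fun ξ _ => sq_nonneg _
  have hi2 : ∀ y, IntervalIntegrable (fun ξ => B ξ ^ 2 * h y ξ) volume (-1) 1 := fun y =>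
    (hi y).continuousOn_mul (hB.pow 2).continuousOn
  calc ∑ n ∈ Finset.Icc 1 X, ArithmeticFunction.vonMangoldt n ^ 2 / n * G (Real.log n) ^ 2
      ≤ ∑ n ∈ Finset.Icc 1 X, ArithmeticFunction.vonMangoldt n ^ 2 / n *
        (1 / (a * Real.sqrt (2 * Real.pi)) * ∫ ξ in (-1:ℝ)..1, B ξ ^ 2 * h (Real.log n) ξ) :=
        Finset.sum_le_sum fun n _ => mul_le_mul_of_nonneg_left (hG _) (by positivity)
    _ = 1 / (a * Real.sqrt (2 * Real.pi)) * ∫ ξ in (-1:ℝ)..1,
        ∑ n ∈ Finset.Icc 1 X, ArithmeticFunction.vonMangoldt n ^ 2 / n *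
          (B ξ ^ 2 * h (Real.log n) ξ) := by
        rw [intervalIntegral.integral_finsetSum fun n _ => (hi2 _).const_mul _, Finset.mul_sum]
        refine Finset.sum_congr rfl fun n _ => ?_
        rw [intervalIntegral.integral_const_mul]
        ring
    _ ≤ 1 / (a * Real.sqrt (2 * Real.pi)) * ∫ ξ in (-1:ℝ)..1,
        B ξ ^ 2 * (5 * Real.exp 2 * c0 * (1 + V)) := by
        refine mul_le_mul_of_nonneg_left ?_ (by positivity)
        refine intervalIntegral.integral_mono_on (by norm_num) ?_ ?_ ?_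
        · have h1 : (fun ξ : ℝ => ∑ n ∈ Finset.Icc 1 X,
              ArithmeticFunction.vonMangoldt n ^ 2 / n * (B ξ ^ 2 * h (Real.log n) ξ)) =
              ∑ n ∈ Finset.Icc 1 X, fun ξ : ℝ =>
                ArithmeticFunction.vonMangoldt n ^ 2 / n * (B ξ ^ 2 * h (Real.log n) ξ) := by
            ext ξ
            rw [Finset.sum_apply]
          rw [h1]
          exact IntervalIntegrable.sum _ fun n _ => (hi2 _).const_mul _
        · exact Continuous.intervalIntegrable (by fun_prop) _ _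
        · intro ξ hξ
          have e1 : ∑ n ∈ Finset.Icc 1 X, ArithmeticFunction.vonMangoldt n ^ 2 / n *
              (B ξ ^ 2 * h (Real.log n) ξ) = B ξ ^ 2 * ∑ n ∈ Finset.Icc 1 X,
              ArithmeticFunction.vonMangoldt n ^ 2 / n * h (Real.log n) ξ := by
            rw [Finset.mul_sum]
            exact Finset.sum_congr rfl fun n _ => by ring
          rw [e1]
          exact mul_le_mul_of_nonneg_left (hh ξ hξ) (sq_nonneg _)
    _ = (5 * Real.exp 2 * c0 * (1 + V)) / a * (∫ ξ in (-1:ℝ)..1, B ξ ^ 2) /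
          Real.sqrt (2 * Real.pi) := by
        rw [intervalIntegral.integral_mul_const]
        field_simp
    _ ≤ (5 * Real.exp 2 * c0 * (1 + V)) / a * (∫ ξ in (-1:ℝ)..1, B ξ ^ 2) :=
        div_le_self (by positivity) hs
    _ ≤ c1 * ((1 + V) / a) * ∫ ξ in (-1:ℝ)..1, B ξ ^ 2 := by
        refine mul_le_mul_of_nonneg_right ?_ hB2
        rw [mul_div_assoc]
        refine mul_le_mul_of_nonneg_right ?_ (by positivity)
        unfold c1
        nlinarith [mul_pos (Real.exp_pos 2) hc0]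

lemma sum_Gp2 (B : ℝ → ℝ) (a u : ℝ) (hB : Continuous B) (ha : 1 ≤ a) (hu : 0 ≤ u) (X : ℕ) :
    ∑ n ∈ Finset.Icc 1 X, ArithmeticFunction.vonMangoldt n ^ 2 / n * Gp B a u (Real.log n) ^ 2 ≤
      2 * c1 * (1 + u / a) * ∫ ξ in (-1:ℝ)..1, B ξ ^ 2 := by
  have ha0 : 0 < a := by linarith
  have hB2 : 0 ≤ ∫ ξ in (-1:ℝ)..1, B ξ ^ 2 :=
    intervalIntegral.integral_nonneg (by norm_num) fun ξ _ => sq_nonneg _
  have h1 := sum_G2 B hB (Gp B a u) (hp a u) a (u + a) ha (by positivity) X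
    (fun y => Gp_sq2 B a u y hB ha0) (fun y => hp_ii a u y _ _) ?_
  · refine h1.trans ?_
    have h2 : (1 + (u + a)) / a ≤ 2 * (1 + u / a) := by
      rw [div_le_iff₀ ha0]
      have : 2 * (1 + u / a) * a = 2 * a + 2 * u := by field_simp
      rw [this]
      linarith
    have := c1_pos
    refine mul_le_mul_of_nonneg_right ?_ hB2
    calc c1 * ((1 + (u + a)) / a) ≤ c1 * (2 * (1 + u / a)) :=
          mul_le_mul_of_nonneg_left h2 (by positivity)
      _ = 2 * c1 * (1 + u / a) := by ring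
  · intro ξ hξ
    by_cases h : 0 ≤ u + ξ * a
    · have h3 := sum_W (u + ξ * a) h X
      have h4 : 0 ≤ 5 * Real.exp 2 * c0 := by
        have := c0_pos
        positivity
      have h5 : u + ξ * a ≤ u + a := by nlinarith [hξ.2]
      simp only [hp, if_pos h]
      exact h3.trans (mul_le_mul_of_nonneg_left (by linarith) h4)
    · simp only [hp, if_neg h, mul_zero, Finset.sum_const_zero]
      have := c0_pos
      positivity

lemma sum_Gm2 (B : ℝ → ℝ) (a u : ℝ) (hB : Continuous B) (ha : 1 ≤ a) (hu : 0 ≤ u) (X : ℕ) :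
    ∑ n ∈ Finset.Icc 1 X, ArithmeticFunction.vonMangoldt n ^ 2 / n * Gm B a u (Real.log n) ^ 2 ≤
      2 * c1 * (1 + u / a) * ∫ ξ in (-1:ℝ)..1, B ξ ^ 2 := by
  have ha0 : 0 < a := by linarith
  have hB2 : 0 ≤ ∫ ξ in (-1:ℝ)..1, B ξ ^ 2 :=
    intervalIntegral.integral_nonneg (by norm_num) fun ξ _ => sq_nonneg _
  have h1 := sum_G2 B hB (Gm B a u) (hm a u) a a ha ha0.le X
    (fun y => Gm_sq2 B a u y hB ha0) (fun y => hm_ii a u y _ _) ?_
  · refine h1.trans ?_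
    have h2 : (1 + a) / a ≤ 2 * (1 + u / a) := by
      rw [div_le_iff₀ ha0]
      have : 2 * (1 + u / a) * a = 2 * a + 2 * u := by field_simp
      rw [this]
      linarith
    have := c1_pos
    refine mul_le_mul_of_nonneg_right ?_ hB2
    calc c1 * ((1 + a) / a) ≤ c1 * (2 * (1 + u / a)) :=
          mul_le_mul_of_nonneg_left h2 (by positivity)
      _ = 2 * c1 * (1 + u / a) := by ring
  · intro ξ hξ
    by_cases h : 0 ≤ u + ξ * a
    · simp only [hm, if_pos h, mul_zero, Finset.sum_const_zero]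
      have := c0_pos
      positivity
    · have h' : 0 ≤ -(u + ξ * a) := by linarith [not_le.1 h]
      have h3 := sum_W (-(u + ξ * a)) h' X
      have h4 : 0 ≤ 5 * Real.exp 2 * c0 := by
        have := c0_pos
        positivity
      have h5 : -(u + ξ * a) ≤ a := by nlinarith [hξ.1]
      have h6 : ∀ y : ℝ, Real.exp (-(u + ξ * a + y) ^ 2 / 2) =
          Real.exp (-(-(u + ξ * a) - y) ^ 2 / 2) := by
        intro y
        congr 1
        ring
      simp only [hm, if_neg h, h6]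
      exact h3.trans (mul_le_mul_of_nonneg_left (by linarith) h4)

/-! ### sums over primes and prime powers -/

theorem theta_succ (N : ℕ) : Chebyshev.theta ((N + 1 : ℕ) : ℝ) =
    Chebyshev.theta ((N : ℕ) : ℝ) + (if (N + 1).Prime then Real.log ((N + 1 : ℕ) : ℝ) else 0) := by
  rw [Chebyshev.theta_eq_sum_Icc, Chebyshev.theta_eq_sum_Icc, Nat.floor_natCast, Nat.floor_natCast]
  rw [Finset.sum_filter, Finset.sum_filter]
  rw [← Finset.insert_Icc_right_eq_Icc_add_one (by omega : 0 ≤ N + 1), Finset.sum_insert (by simp), add_comm]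

theorem mertens_up (N : ℕ) : ∑ p ∈ (Finset.Icc 1 N).filter Nat.Prime, Real.log p / p ≤
    Chebyshev.theta ((N : ℕ) : ℝ) / (N + 1) + Real.log 4 * Real.log (N + 1) := by
  induction N with
  | zero =>
    simp [Chebyshev.theta_zero]
  | succ N ih =>
    have e1 : ∑ p ∈ (Finset.Icc 1 (N + 1)).filter Nat.Prime, Real.log p / p =
        ∑ p ∈ (Finset.Icc 1 N).filter Nat.Prime, Real.log p / p +
        (if (N + 1).Prime then Real.log ((N + 1 : ℕ) : ℝ) / ((N + 1 : ℕ) : ℝ) else 0) := by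
      rw [Finset.sum_filter, Finset.sum_filter]
      rw [← Finset.insert_Icc_right_eq_Icc_add_one (by omega : 1 ≤ N + 1),
        Finset.sum_insert (by simp), add_comm]
    rw [e1]
    have e2 := theta_succ N
    have hpos : (0 : ℝ) < (N : ℝ) + 1 := by positivity
    have e3 : (if (N + 1).Prime then Real.log ((N + 1 : ℕ) : ℝ) / ((N + 1 : ℕ) : ℝ) else 0) =
        (Chebyshev.theta ((N + 1 : ℕ) : ℝ) - Chebyshev.theta ((N : ℕ) : ℝ)) / ((N : ℝ) + 1) := by
      rw [e2]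
      split_ifs <;> push_cast <;> ring
    rw [e3]
    have h4 : Chebyshev.theta ((N + 1 : ℕ) : ℝ) ≤ Real.log 4 * ((N : ℝ) + 1) := by
      have := Chebyshev.theta_le_log4_mul_x (x := ((N + 1 : ℕ) : ℝ)) (by positivity)
      push_cast at this ⊢
      exact this
    have h5 : 1 / ((N : ℝ) + 2) ≤ Real.log ((N : ℝ) + 1 + 1) - Real.log ((N : ℝ) + 1) := by
      rw [← Real.log_div (by positivity) (by positivity)]
      have := Real.one_sub_inv_le_log_of_pos (x := ((N : ℝ) + 1 + 1) / ((N : ℝ) + 1)) (by positivity)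
      refine le_trans (le_of_eq ?_) this
      field_simp
      ring
    have hlog4 : 0 < Real.log 4 := Real.log_pos (by norm_num)
    have h6 : Chebyshev.theta ((N + 1 : ℕ) : ℝ) / ((N : ℝ) + 1) -
        Chebyshev.theta ((N + 1 : ℕ) : ℝ) / ((N : ℝ) + 2) ≤ Real.log 4 * (1 / ((N : ℝ) + 2)) := by
      have : Chebyshev.theta ((N + 1 : ℕ) : ℝ) / ((N : ℝ) + 1) -
        Chebyshev.theta ((N + 1 : ℕ) : ℝ) / ((N : ℝ) + 2) =
        Chebyshev.theta ((N + 1 : ℕ) : ℝ) / (((N : ℝ) + 1) * ((N : ℝ) + 2)) := by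
        field_simp
        ring
      rw [this, div_le_iff₀ (by positivity)]
      refine h4.trans (le_of_eq ?_)
      field_simp
    have h7 : Real.log 4 * (1 / ((N : ℝ) + 2)) ≤
        Real.log 4 * (Real.log ((N : ℝ) + 1 + 1) - Real.log ((N : ℝ) + 1)) :=
      mul_le_mul_of_nonneg_left h5 hlog4.le
    push_cast
    rw [show (N : ℝ) + 1 + 1 = (N : ℝ) + 2 by ring] at h7 ⊢
    have e4 : (Chebyshev.theta ((N : ℝ) + 1) - Chebyshev.theta (N : ℝ)) / ((N : ℝ) + 1) =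
        Chebyshev.theta ((N : ℝ) + 1) / ((N : ℝ) + 1) - Chebyshev.theta (N : ℝ) / ((N : ℝ) + 1) := by
      ring
    push_cast at h6 ih
    rw [e4]
    linarith

/-- the sum of `log p / p` over the small primes -/
lemma sum_log_div (c T : ℝ) (h : 0 ≤ Real.log T ^ c) :
    ∑ p ∈ Pr c T, Real.log p / p ≤ 3 * (1 + Real.log T ^ c) := by
  set N : ℕ := ⌊yc c T⌋₊ with hN
  have h1 := mertens_up N
  have h2 : Chebyshev.theta ((N : ℕ) : ℝ) / (N + 1) ≤ Real.log 4 := by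
    rw [div_le_iff₀ (by positivity)]
    have := Chebyshev.theta_le_log4_mul_x (x := ((N : ℕ) : ℝ)) (by positivity)
    have h4 : 0 ≤ Real.log 4 := Real.log_nonneg (by norm_num)
    nlinarith
  have hy : (N : ℝ) ≤ Real.exp (Real.log T ^ c) := Nat.floor_le (Real.exp_pos _).le
  have h3 : Real.log (N + 1) ≤ Real.log 2 + Real.log T ^ c := by
    rw [← Real.log_exp (Real.log T ^ c), ← Real.log_mul (by norm_num) (Real.exp_pos _).ne']
    refine Real.log_le_log (by positivity) ?_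
    have : 1 ≤ Real.exp (Real.log T ^ c) := Real.one_le_exp h
    linarith
  have h4 : Real.log 4 = 2 * Real.log 2 := by
    rw [show (4 : ℝ) = 2 ^ 2 by norm_num, Real.log_pow]
    norm_num
  have h5 := Real.log_two_lt_d9
  have h6 : 0 < Real.log 2 := Real.log_pos (by norm_num)
  have h7 : Real.log 4 * Real.log (N + 1) ≤ Real.log 4 * (Real.log 2 + Real.log T ^ c) :=
    mul_le_mul_of_nonneg_left h3 (by linarith)
  have h8 : ∑ p ∈ Pr c T, Real.log p / p ≤ Real.log 4 + Real.log 4 * (Real.log 2 + Real.log T ^ c) := by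
    unfold Pr
    rw [← hN]
    linarith
  refine h8.trans ?_
  rw [h4]
  nlinarith

/-- a geometric sum -/
lemma geom_two (r : ℝ) (hr0 : 0 ≤ r) (hr1 : r ≤ 3 / 4) (J : ℕ) :
    ∑ k ∈ Finset.Icc 2 J, r ^ k ≤ 4 * r ^ 2 := by
  have h1 : ∑ k ∈ Finset.Icc 2 J, r ^ k ≤ ∑ k ∈ Finset.range J, r ^ 2 * r ^ k := by
    have e1 : ∑ k ∈ Finset.Icc 2 J, r ^ k ≤ ∑ k ∈ Finset.Ico 2 (J + 2), r ^ k := by
      refine Finset.sum_le_sum_of_subset_of_nonneg ?_ fun k _ _ => pow_nonneg hr0 k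
      intro k hk
      rw [Finset.mem_Icc] at hk
      rw [Finset.mem_Ico]
      omega
    refine e1.trans (le_of_eq ?_)
    rw [Finset.sum_Ico_eq_sum_range]
    refine Finset.sum_congr (by rw [Nat.add_sub_cancel]) fun k _ => ?_
    rw [pow_add]
  refine h1.trans ?_
  rw [← Finset.mul_sum, mul_comm (4 : ℝ)]
  refine mul_le_mul_of_nonneg_left ?_ (sq_nonneg r)
  have h2 := geom_sum_eq (x := r) (by linarith : r ≠ 1) J
  rw [h2, div_le_iff_of_neg (by linarith)]
  have h3 : 0 ≤ r ^ J := pow_nonneg hr0 J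
  linarith

/-- the sum over the proper powers of the small primes -/
lemma sum_powers (c T : ℝ) (X : ℕ) (W : Finset ℕ) (hW : ∀ n ∈ W, n ∈ Finset.Icc 1 X ∧ ¬ n.Prime ∧
    ∃ p ∈ Pr c T, p ∣ n) :
    ∑ n ∈ W, ArithmeticFunction.vonMangoldt n * (Real.sqrt n)⁻¹ ≤
      4 * ∑ p ∈ Pr c T, Real.log p / p := by
  classical
  set f : ℕ → ℝ := fun n => ArithmeticFunction.vonMangoldt n * (Real.sqrt n)⁻¹ with hf
  have hf0 : ∀ n, 0 ≤ f n := fun n =>
    mul_nonneg ArithmeticFunction.vonMangoldt_nonneg (inv_nonneg.2 (Real.sqrt_nonneg _))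
  have hPr : ∀ p ∈ Pr c T, p.Prime := fun p hp => (Finset.mem_filter.1 hp).2
  set W' := W.filter (fun n => ArithmeticFunction.vonMangoldt n ≠ 0) with hW'
  have h1 : ∑ n ∈ W, f n = ∑ n ∈ W', f n := by
    rw [hW', Finset.sum_filter]
    refine Finset.sum_congr rfl fun n _ => ?_
    by_cases h : ArithmeticFunction.vonMangoldt n = 0
    · simp [hf, h]
    · rw [if_pos h]
  rw [h1]
  set S : Finset (ℕ × ℕ) := Pr c T ×ˢ Finset.Icc 2 X with hS
  have hsub : W' ⊆ S.image (fun q => q.1 ^ q.2) := by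
    intro n hn
    rw [hW', Finset.mem_filter] at hn
    obtain ⟨hnW, hn0⟩ := hn
    obtain ⟨hnX, hnp, p, hp, hpn⟩ := hW n hnW
    rw [ArithmeticFunction.vonMangoldt_ne_zero_iff] at hn0
    rw [isPrimePow_nat_iff] at hn0
    obtain ⟨q, k, hq, hk, rfl⟩ := hn0
    have hpq : p = q := by
      have := (hPr p hp).dvd_of_dvd_pow hpn
      exact (Nat.prime_dvd_prime_iff_eq (hPr p hp) hq).1 this
    subst hpq
    rw [Finset.mem_image]
    refine ⟨(p, k), ?_, rfl⟩
    rw [hS, Finset.mem_product, Finset.mem_Icc]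
    refine ⟨hp, ?_, ?_⟩
    · rcases Nat.lt_or_ge k 2 with h | h
      · exfalso
        have : k = 1 := by omega
        subst this
        rw [pow_one] at hnp
        exact hnp hq
      · exact h
    · have h2 := (Finset.mem_Icc.1 hnX).2
      exact (Nat.lt_pow_self hq.one_lt).le.trans h2
  have hinj : Set.InjOn (fun q : ℕ × ℕ => q.1 ^ q.2) (S : Set (ℕ × ℕ)) := by
    rintro ⟨p, k⟩ h1 ⟨q, l⟩ h2 h
    rw [Finset.mem_coe, hS, Finset.mem_product, Finset.mem_Icc] at h1 h2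
    simp only at h h1 h2
    have hp := hPr p h1.1
    have hq := hPr q h2.1
    have h3 : p ∣ q ^ l := by
      rw [← h]
      exact dvd_pow_self p (by omega)
    have h4 : p = q := (Nat.prime_dvd_prime_iff_eq hp hq).1 (hp.dvd_of_dvd_pow h3)
    subst h4
    have h5 : k = l := Nat.pow_right_injective hp.two_le h
    rw [h5]
  calc ∑ n ∈ W', f n ≤ ∑ n ∈ S.image (fun q => q.1 ^ q.2), f n :=
        Finset.sum_le_sum_of_subset_of_nonneg hsub fun n _ _ => hf0 n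
    _ = ∑ q ∈ S, f (q.1 ^ q.2) := Finset.sum_image hinj
    _ = ∑ p ∈ Pr c T, ∑ k ∈ Finset.Icc 2 X, f (p ^ k) := by rw [hS, Finset.sum_product]
    _ ≤ ∑ p ∈ Pr c T, Real.log p * (4 * (1 / (p : ℝ))) := by
        refine Finset.sum_le_sum fun p hp => ?_
        have hpp := hPr p hp
        have hp2 : (2 : ℝ) ≤ p := by exact_mod_cast hpp.two_le
        have hp0 : (0 : ℝ) < p := by linarith
        have hr : ((Real.sqrt p)⁻¹) ^ 2 = 1 / (p : ℝ) := by
          rw [inv_pow, Real.sq_sqrt hp0.le, one_div]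
        have hr0 : 0 ≤ (Real.sqrt p)⁻¹ := by positivity
        have hr1 : (Real.sqrt p)⁻¹ ≤ 3 / 4 := by
          have h3 : ((Real.sqrt p)⁻¹) ^ 2 ≤ (3 / 4 : ℝ) ^ 2 := by
            rw [hr]
            have : 1 / (p : ℝ) ≤ 1 / 2 := one_div_le_one_div_of_le (by norm_num) hp2
            linarith
          exact (pow_le_pow_iff_left₀ hr0 (by norm_num) (by norm_num)).1 h3
        have h4 : ∀ k ∈ Finset.Icc 2 X, f (p ^ k) = Real.log p * ((Real.sqrt p)⁻¹) ^ k := by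
          intro k hk
          rw [Finset.mem_Icc] at hk
          simp only [hf]
          rw [ArithmeticFunction.vonMangoldt_apply_pow (by omega),
            ArithmeticFunction.vonMangoldt_apply_prime hpp]
          congr 1
          rw [inv_pow, Nat.cast_pow]
          congr 1
          rw [← Real.sqrt_sq (pow_nonneg (Real.sqrt_nonneg (p : ℝ)) k)]
          congr 1
          rw [← pow_mul, mul_comm, pow_mul, Real.sq_sqrt hp0.le]
        rw [Finset.sum_congr rfl h4, ← Finset.mul_sum]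
        refine mul_le_mul_of_nonneg_left ?_ (Real.log_nonneg (by linarith))
        have := geom_two _ hr0 hr1 X
        rwa [hr] at this
    _ = 4 * ∑ p ∈ Pr c T, Real.log p / p := by
        rw [Finset.mul_sum]
        exact Finset.sum_congr rfl fun p _ => by ring

end

end Pool.Agent.Y732.LD
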