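import Pool.Agent.Y732.LD.VSM1

set_option autoImplicit false

/-!
LD project (helper745), VSM: the weighted mean squares of the prime sums.
-/

namespace Pool.Agent.Y732.LD

open Filter Topology MeasureTheory Complex Pool.Agent.Y745.SW Pool.Agent.Y745.LD Pool.Agent.Y274.SW

noncomputable section

lemma Pc_cont (c T : ℝ) : Continuous (Pc c T) := by
  unfold Pc Py
  refine continuous_finsetSum _ fun p hp => ?_
  have hp0 : (p : ℂ) ≠ 0 := by
    have := (Finset.mem_Icc.1 (Finset.mem_filter.1 hp).1).1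
    exact_mod_cast (by omega : p ≠ 0)
  exact Continuous.const_cpow (by fun_prop) (Or.inl hp0)

lemma V_cont (κ c A T : ℝ) : Continuous (V κ c A T) := by
  unfold V Qk tex
  have h := Pc_cont c T
  fun_prop

lemma V_nonneg (κ c A T t : ℝ) : 0 ≤ V κ c A T t := by
  unfold V
  positivity

lemma IV_nonneg (κ c A T : ℝ) (hT : 0 ≤ T) : 0 ≤ IV κ c A T := by
  unfold IV
  exact intervalIntegral.integral_nonneg (by linarith) fun t _ => V_nonneg _ _ _ _ _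

/-- the coefficients -/
def bb (cc : ℕ → ℂ) (g : ℕ → ℝ) (n : ℕ) : ℂ := cc n * ((Real.sqrt n)⁻¹ * g n : ℝ)

/-- the shift -/
def sh (x : ℝ) (n : ℕ) : ℂ := (n : ℂ) ^ (-(x : ℂ) * I)

lemma sh_norm (x : ℝ) (n : ℕ) (hn : 1 ≤ n) : ‖sh x n‖ = 1 := by
  unfold sh
  rw [Complex.norm_natCast_cpow_of_pos (by omega)]
  simp

lemma sh_mul (x t : ℝ) (n : ℕ) (hn : 1 ≤ n) :
    (n : ℂ) ^ (-((t + x : ℝ) : ℂ) * I) = sh x n * (n : ℂ) ^ (-(t : ℂ) * I) := by
  unfold sh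
  have hn0 : (n : ℂ) ≠ 0 := by exact_mod_cast (by omega : n ≠ 0)
  rw [← Complex.cpow_add _ _ hn0]
  congr 1
  push_cast
  ring

lemma cpow_norm (t : ℝ) (n : ℕ) (hn : 1 ≤ n) : ‖(n : ℂ) ^ (-(t : ℂ) * I)‖ = 1 := sh_norm t n hn

lemma bb_norm (cc : ℕ → ℂ) (g : ℕ → ℝ) (M : ℝ) (hc : ∀ n, ‖cc n‖ ≤ ArithmeticFunction.vonMangoldt n)
    (hg : ∀ n, |g n| ≤ M) (n : ℕ) :
    ‖bb cc g n‖ ≤ ArithmeticFunction.vonMangoldt n * (Real.sqrt n)⁻¹ * M := by
  unfold bb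
  rw [norm_mul, Complex.norm_real, Real.norm_eq_abs, abs_mul, abs_of_nonneg
    (inv_nonneg.2 (Real.sqrt_nonneg (n : ℝ)))]
  calc ‖cc n‖ * ((Real.sqrt n)⁻¹ * |g n|)
      ≤ ArithmeticFunction.vonMangoldt n * ((Real.sqrt n)⁻¹ * M) := by
        refine mul_le_mul (hc n) ?_ (by positivity) ArithmeticFunction.vonMangoldt_nonneg
        exact mul_le_mul_of_nonneg_left (hg n) (by positivity)
    _ = ArithmeticFunction.vonMangoldt n * (Real.sqrt n)⁻¹ * M := by ring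

/-- integers without small prime factors -/
def Rg (c T : ℝ) (n : ℕ) : Prop := ∀ p : ℕ, p.Prime → p ∣ n → yc c T < p

open Classical in
/-- coefficients of the rough part -/
def b1 (c T x : ℝ) (b : ℕ → ℂ) (n : ℕ) : ℂ := if Rg c T n then b n * sh x n else 0

/-- coefficients at the small primes -/
def b2 (X : ℕ) (x : ℝ) (b : ℕ → ℂ) (p : ℕ) : ℂ := if p ≤ X then b p * sh x p else 0

open Classical in
/-- the remaining integers -/
def WW (c T : ℝ) (X : ℕ) : Finset ℕ := (Finset.Icc 1 X).filter (fun n => ¬ Rg c T n ∧ ¬ n.Prime)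

/-- the remaining part -/
def b3 (c T x : ℝ) (X : ℕ) (b : ℕ → ℂ) (t : ℝ) : ℂ :=
  ∑ n ∈ WW c T X, b n * sh x n * (n : ℂ) ^ (-(t : ℂ) * I)

lemma mem_Pr (c T : ℝ) (p : ℕ) : p ∈ Pr c T ↔ p.Prime ∧ (p : ℝ) ≤ yc c T := by
  unfold Pr
  rw [Finset.mem_filter, Finset.mem_Icc, Nat.le_floor_iff (show 0 ≤ yc c T from (Real.exp_pos _).le)]
  constructor
  · rintro ⟨⟨_, h2⟩, h3⟩
    exact ⟨h3, h2⟩
  · rintro ⟨h1, h2⟩
    exact ⟨⟨h1.one_lt.le, h2⟩, h1⟩

lemma not_Rg (c T : ℝ) (n : ℕ) (h : ¬ Rg c T n) : ∃ p ∈ Pr c T, p ∣ n := by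
  unfold Rg at h
  push Not at h
  obtain ⟨p, hp, hpn, hle⟩ := h
  exact ⟨p, (mem_Pr c T p).2 ⟨hp, hle⟩, hpn⟩

lemma Rg_prime (c T : ℝ) (p : ℕ) (hp : p.Prime) : ¬ Rg c T p ↔ p ∈ Pr c T := by
  constructor
  · intro h
    obtain ⟨q, hq, hqp⟩ := not_Rg c T p h
    have h1 := (mem_Pr c T q).1 hq
    rwa [(Nat.prime_dvd_prime_iff_eq h1.1 hp).1 hqp] at hq
  · intro h h2
    have h3 := ((mem_Pr c T p).1 h).2
    have h4 := h2 p hp (dvd_refl p)
    linarith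

lemma decomp (c T x : ℝ) (X : ℕ) (b : ℕ → ℂ) (t : ℝ) :
    DD X b (t + x) = (∑ n ∈ Finset.Icc 1 X, b1 c T x b n * (n : ℂ) ^ (-(t : ℂ) * I)) +
      (∑ p ∈ Pr c T, b2 X x b p * (p : ℂ) ^ (-(t : ℂ) * I)) + b3 c T x X b t := by
  classical
  set f : ℕ → ℂ := fun n => b n * sh x n * (n : ℂ) ^ (-(t : ℂ) * I) with hf
  have e0 : DD X b (t + x) = ∑ n ∈ Finset.Icc 1 X, f n := by
    unfold DD
    refine Finset.sum_congr rfl fun n hn => ?_
    rw [sh_mul x t n (Finset.mem_Icc.1 hn).1]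
    simp only [hf]
    ring
  have e1 : (∑ n ∈ Finset.Icc 1 X, b1 c T x b n * (n : ℂ) ^ (-(t : ℂ) * I)) =
      ∑ n ∈ (Finset.Icc 1 X).filter (fun n => Rg c T n), f n := by
    rw [Finset.sum_filter]
    refine Finset.sum_congr rfl fun n _ => ?_
    unfold b1
    split_ifs
    · rfl
    · rw [zero_mul]
  have e2 : (∑ p ∈ Pr c T, b2 X x b p * (p : ℂ) ^ (-(t : ℂ) * I)) =
      ∑ n ∈ ((Finset.Icc 1 X).filter (fun n => ¬ Rg c T n)).filter (fun n => n.Prime), f n := by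
    have e3 : (∑ p ∈ Pr c T, b2 X x b p * (p : ℂ) ^ (-(t : ℂ) * I)) =
        ∑ p ∈ (Pr c T).filter (fun p => p ≤ X), f p := by
      rw [Finset.sum_filter]
      refine Finset.sum_congr rfl fun p _ => ?_
      unfold b2
      split_ifs
      · rfl
      · rw [zero_mul]
    rw [e3]
    refine Finset.sum_congr ?_ fun _ _ => rfl
    ext p
    rw [Finset.mem_filter, Finset.mem_filter, Finset.mem_filter, Finset.mem_Icc]
    constructor
    · rintro ⟨h1, h2⟩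
      have hp := ((mem_Pr c T p).1 h1).1
      exact ⟨⟨⟨hp.one_lt.le, h2⟩, (Rg_prime c T p hp).2 h1⟩, hp⟩
    · rintro ⟨⟨⟨_, h2⟩, h3⟩, hp⟩
      exact ⟨(Rg_prime c T p hp).1 h3, h2⟩
  have e3 : b3 c T x X b t =
      ∑ n ∈ ((Finset.Icc 1 X).filter (fun n => ¬ Rg c T n)).filter (fun n => ¬ n.Prime), f n := by
    unfold b3 WW
    rw [Finset.filter_filter]
  rw [e0, e1, e2, e3, add_assoc, Finset.sum_filter_add_sum_filter_not,
    Finset.sum_filter_add_sum_filter_not]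

lemma b3_norm (cc : ℕ → ℂ) (g : ℕ → ℝ) (M c T x : ℝ) (X : ℕ)
    (hc : ∀ n, ‖cc n‖ ≤ ArithmeticFunction.vonMangoldt n) (hg : ∀ n, |g n| ≤ M)
    (h1 : 1 ≤ Real.log T ^ c) (t : ℝ) :
    ‖b3 c T x X (bb cc g) t‖ ≤ 24 * (M * Real.log T ^ c) := by
  classical
  have hM : 0 ≤ M := (abs_nonneg _).trans (hg 0)
  unfold b3
  refine (norm_sum_le _ _).trans ?_
  calc ∑ n ∈ WW c T X, ‖bb cc g n * sh x n * (n : ℂ) ^ (-(t : ℂ) * I)‖
      ≤ ∑ n ∈ WW c T X, ArithmeticFunction.vonMangoldt n * (Real.sqrt n)⁻¹ * M := by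
        refine Finset.sum_le_sum fun n hn => ?_
        have hn1 : 1 ≤ n := (Finset.mem_Icc.1 (Finset.mem_filter.1 hn).1).1
        rw [norm_mul, norm_mul, sh_norm x n hn1, cpow_norm t n hn1, mul_one, mul_one]
        exact bb_norm cc g M hc hg n
    _ = (∑ n ∈ WW c T X, ArithmeticFunction.vonMangoldt n * (Real.sqrt n)⁻¹) * M := by
        rw [Finset.sum_mul]
    _ ≤ (4 * (3 * (1 + Real.log T ^ c))) * M := by
        refine mul_le_mul_of_nonneg_right ?_ hM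
        refine (sum_powers c T X (WW c T X) fun n hn => ?_).trans
          (mul_le_mul_of_nonneg_left (sum_log_div c T (by linarith)) (by norm_num))
        rw [WW, Finset.mem_filter] at hn
        exact ⟨hn.1, hn.2.2, not_Rg c T n hn.2.1⟩
    _ ≤ 24 * (M * Real.log T ^ c) := by nlinarith

lemma bb_sq (cc : ℕ → ℂ) (g : ℕ → ℝ) (hc : ∀ n, ‖cc n‖ ≤ ArithmeticFunction.vonMangoldt n) (n : ℕ) :
    ‖bb cc g n‖ ^ 2 ≤ ArithmeticFunction.vonMangoldt n ^ 2 / n * g n ^ 2 :=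
  coef_sq cc hc (g n) n

lemma b1_sq (cc : ℕ → ℂ) (g : ℕ → ℝ) (S c T x : ℝ) (X : ℕ)
    (hc : ∀ n, ‖cc n‖ ≤ ArithmeticFunction.vonMangoldt n)
    (hS : ∑ n ∈ Finset.Icc 1 X, ArithmeticFunction.vonMangoldt n ^ 2 / n * g n ^ 2 ≤ S) :
    ∑ n ∈ Finset.Icc 1 X, ‖b1 c T x (bb cc g) n‖ ^ 2 ≤ S := by
  refine (Finset.sum_le_sum fun n hn => ?_).trans hS
  have hn1 : 1 ≤ n := (Finset.mem_Icc.1 hn).1
  unfold b1
  split_ifs
  · rw [norm_mul, sh_norm x n hn1, mul_one]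
    exact bb_sq cc g hc n
  · rw [norm_zero, zero_pow two_ne_zero]
    positivity

lemma b2_sq (cc : ℕ → ℂ) (g : ℕ → ℝ) (S c T x : ℝ) (X : ℕ)
    (hc : ∀ n, ‖cc n‖ ≤ ArithmeticFunction.vonMangoldt n)
    (hS : ∑ n ∈ Finset.Icc 1 X, ArithmeticFunction.vonMangoldt n ^ 2 / n * g n ^ 2 ≤ S) :
    ∑ p ∈ Pr c T, ‖b2 X x (bb cc g) p‖ ^ 2 ≤ S := by
  classical
  refine le_trans ?_ hS
  have e1 : ∑ p ∈ Pr c T, ‖b2 X x (bb cc g) p‖ ^ 2 =
      ∑ p ∈ (Pr c T).filter (fun p => p ≤ X), ‖bb cc g p‖ ^ 2 := by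
    rw [Finset.sum_filter]
    refine Finset.sum_congr rfl fun p hp => ?_
    have hp1 : 1 ≤ p := ((mem_Pr c T p).1 hp).1.one_lt.le
    unfold b2
    split_ifs
    · rw [norm_mul, sh_norm x p hp1, mul_one]
    · simp
  rw [e1]
  refine (Finset.sum_le_sum fun p _ => bb_sq cc g hc p).trans ?_
  refine Finset.sum_le_sum_of_subset_of_nonneg ?_ fun n _ _ => by positivity
  intro p hp
  rw [Finset.mem_filter] at hp
  exact Finset.mem_Icc.2 ⟨((mem_Pr c T p).1 hp.1).1.one_lt.le, hp.2⟩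

lemma b2_one (cc : ℕ → ℂ) (g : ℕ → ℝ) (M c T x : ℝ) (X : ℕ)
    (hc : ∀ n, ‖cc n‖ ≤ ArithmeticFunction.vonMangoldt n) (hg : ∀ n, |g n| ≤ M)
    (h1 : 1 ≤ Real.log T ^ c) :
    ∑ p ∈ Pr c T, ‖b2 X x (bb cc g) p‖ / Real.sqrt p ≤ 6 * (M * Real.log T ^ c) := by
  have hM : 0 ≤ M := (abs_nonneg _).trans (hg 0)
  calc ∑ p ∈ Pr c T, ‖b2 X x (bb cc g) p‖ / Real.sqrt p
      ≤ ∑ p ∈ Pr c T, M * (Real.log p / p) := by
        refine Finset.sum_le_sum fun p hp => ?_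
        have hpp := ((mem_Pr c T p).1 hp).1
        have hp1 : 1 ≤ p := hpp.one_lt.le
        have hp0 : (0 : ℝ) < p := by exact_mod_cast hpp.pos
        have hlog : 0 ≤ Real.log p := Real.log_natCast_nonneg p
        have h3 : ‖b2 X x (bb cc g) p‖ ≤ Real.log p * (Real.sqrt p)⁻¹ * M := by
          unfold b2
          split_ifs
          · rw [norm_mul, sh_norm x p hp1, mul_one]
            have := bb_norm cc g M hc hg p
            rwa [ArithmeticFunction.vonMangoldt_apply_prime hpp] at this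
          · rw [norm_zero]
            positivity
        rw [div_eq_mul_inv]
        calc ‖b2 X x (bb cc g) p‖ * (Real.sqrt p)⁻¹
            ≤ (Real.log p * (Real.sqrt p)⁻¹ * M) * (Real.sqrt p)⁻¹ :=
              mul_le_mul_of_nonneg_right h3 (by positivity)
          _ = M * (Real.log p * ((Real.sqrt p)⁻¹ * (Real.sqrt p)⁻¹)) := by ring
          _ = M * (Real.log p / p) := by
              rw [← mul_inv, Real.mul_self_sqrt hp0.le, div_eq_mul_inv]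
    _ = M * ∑ p ∈ Pr c T, Real.log p / p := by rw [Finset.mul_sum]
    _ ≤ M * (3 * (1 + Real.log T ^ c)) :=
        mul_le_mul_of_nonneg_left (sum_log_div c T (by linarith)) hM
    _ ≤ 6 * (M * Real.log T ^ c) := by nlinarith

lemma sum_cont (s : Finset ℕ) (hs : ∀ n ∈ s, 1 ≤ n) (b : ℕ → ℂ) :
    Continuous fun t : ℝ => ∑ n ∈ s, b n * (n : ℂ) ^ (-(t : ℂ) * I) := by
  refine continuous_finsetSum _ fun n hn => ?_
  have hn0 : (n : ℂ) ≠ 0 := by
    have := hs n hn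
    exact_mod_cast (by omega : n ≠ 0)
  refine continuous_const.mul ?_
  exact Continuous.const_cpow (by fun_prop) (Or.inl hn0)

/-- three terms -/
lemma sq3 (a b c : ℂ) : ‖a + b + c‖ ^ 2 ≤ 3 * (‖a‖ ^ 2 + ‖b‖ ^ 2 + ‖c‖ ^ 2) := by
  have h1 : ‖a + b + c‖ ≤ ‖a‖ + ‖b‖ + ‖c‖ := norm_add₃_le
  exact sq_three _ _ _ _ (norm_nonneg _) h1

/-- the weighted mean square of a prime sum -/
theorem weighted (κ c A ε : ℝ) (hc0 : 0 < c) (hc1 : c < 1) (hε : 0 < ε) (hε1 : ε < 1 / 2)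
    (hVMR : P_VMR) (C : ℝ) (hC : 1 ≤ C)
    (hVMS : ∀ᶠ T : ℝ in atTop, ∀ b : ℕ → ℂ,
      ∫ t in T..(2 * T), V κ c A T t * ‖∑ p ∈ Pr c T, b p * (p : ℂ) ^ (-(t : ℂ) * I)‖ ^ 2 ≤
        C * IV κ c A T * ((∑ p ∈ Pr c T, ‖b p‖ / Real.sqrt p) ^ 2 + ∑ p ∈ Pr c T, ‖b p‖ ^ 2)) :
    ∀ᶠ T : ℝ in atTop, ∀ (cc : ℕ → ℂ) (g : ℕ → ℝ) (M S x : ℝ),
      (∀ n, ‖cc n‖ ≤ ArithmeticFunction.vonMangoldt n) → (∀ n, |g n| ≤ M) →
      (∑ n ∈ Finset.Icc 1 (XT ε T), ArithmeticFunction.vonMangoldt n ^ 2 / n * g n ^ 2 ≤ S) →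
      ∫ t in T..(2 * T), V κ c A T t * ‖DD (XT ε T) (bb cc g) (t + x)‖ ^ 2 ≤
        (1734 + 111 * C) * IV κ c A T * (S + (M * Real.log T ^ c) ^ 2) := by
  classical
  filter_upwards [hVMR κ c A (ε / 4) 1 hc0 hc1 (by positivity) one_pos, hVMS,
    Real.tendsto_log_atTop.eventually_ge_atTop 1, eventually_ge_atTop (1 : ℝ)] with T h1 h2 h3 h4
  intro cc g M S x hc hg hS
  have hT : 0 < T := by linarith
  have hLc : 1 ≤ Real.log T ^ c := Real.one_le_rpow h3 hc0.le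
  have hM : 0 ≤ M := (abs_nonneg _).trans (hg 0)
  have hIV := IV_nonneg κ c A T hT.le
  have hS0 : 0 ≤ S := le_trans (Finset.sum_nonneg fun n _ => by positivity) hS
  set X := XT ε T with hX
  set Q : ℝ := M * Real.log T ^ c with hQ
  have hQ0 : 0 ≤ Q := by positivity
  have hXT : (X : ℝ) ≤ T ^ (1 - ε / 4) := Nat.floor_le (by positivity)
  set f1 : ℝ → ℂ := fun t => ∑ n ∈ Finset.Icc 1 X, b1 c T x (bb cc g) n * (n : ℂ) ^ (-(t : ℂ) * I)
    with hf1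
  set f2 : ℝ → ℂ := fun t => ∑ p ∈ Pr c T, b2 X x (bb cc g) p * (p : ℂ) ^ (-(t : ℂ) * I) with hf2
  have hc1' : Continuous f1 := sum_cont _ (fun n hn => (Finset.mem_Icc.1 hn).1) _
  have hc2' : Continuous f2 := sum_cont _ (fun n hn => ((mem_Pr c T n).1 hn).1.one_lt.le) _
  have hVc := V_cont κ c A T
  -- the rough part
  have r1 : ∫ t in T..(2 * T), V κ c A T t * ‖f1 t‖ ^ 2 ≤ 2 * IV κ c A T * S := by
    refine (h1 X hXT (b1 c T x (bb cc g)) ?_).trans ?_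
    · intro n p hn hp hpn
      unfold b1 at hn
      by_cases h : Rg c T n
      · exact h p hp hpn
      · rw [if_neg h] at hn
        exact absurd rfl hn
    · have := b1_sq cc g S c T x X hc hS
      have h5 : (1 + 1) * IV κ c A T = 2 * IV κ c A T := by ring
      rw [h5]
      exact mul_le_mul_of_nonneg_left this (by positivity)
  -- the small primes
  have r2 : ∫ t in T..(2 * T), V κ c A T t * ‖f2 t‖ ^ 2 ≤ C * IV κ c A T * ((6 * Q) ^ 2 + S) := by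
    refine (h2 (b2 X x (bb cc g))).trans ?_
    refine mul_le_mul_of_nonneg_left (add_le_add ?_ ?_) (by positivity)
    · refine pow_le_pow_left₀ (Finset.sum_nonneg fun p _ => by positivity) ?_ 2
      exact b2_one cc g M c T x X hc hg hLc
    · exact b2_sq cc g S c T x X hc hS
  -- pointwise
  have hpt : ∀ t : ℝ, V κ c A T t * ‖DD X (bb cc g) (t + x)‖ ^ 2 ≤
      3 * (V κ c A T t * ‖f1 t‖ ^ 2) + 3 * (V κ c A T t * ‖f2 t‖ ^ 2) +
        3 * (24 * Q) ^ 2 * V κ c A T t := by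
    intro t
    have hV := V_nonneg κ c A T t
    rw [decomp c T x X (bb cc g) t]
    have h5 := sq3 (f1 t) (f2 t) (b3 c T x X (bb cc g) t)
    have h6 := b3_norm cc g M c T x X hc hg hLc t
    have h7 : ‖b3 c T x X (bb cc g) t‖ ^ 2 ≤ (24 * Q) ^ 2 :=
      pow_le_pow_left₀ (norm_nonneg _) h6 2
    calc V κ c A T t * ‖f1 t + f2 t + b3 c T x X (bb cc g) t‖ ^ 2
        ≤ V κ c A T t * (3 * (‖f1 t‖ ^ 2 + ‖f2 t‖ ^ 2 + (24 * Q) ^ 2)) :=
          mul_le_mul_of_nonneg_left (by linarith) hV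
      _ = 3 * (V κ c A T t * ‖f1 t‖ ^ 2) + 3 * (V κ c A T t * ‖f2 t‖ ^ 2) +
        3 * (24 * Q) ^ 2 * V κ c A T t := by ring
  have i0 : IntervalIntegrable (fun t : ℝ => V κ c A T t * ‖DD X (bb cc g) (t + x)‖ ^ 2) volume
      T (2 * T) := by
    refine Continuous.intervalIntegrable ?_ _ _
    exact hVc.mul (((DD_cont X (bb cc g)).comp (continuous_id.add continuous_const)).norm.pow 2)
  have i1 : IntervalIntegrable (fun t : ℝ => V κ c A T t * ‖f1 t‖ ^ 2) volume T (2 * T) :=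
    Continuous.intervalIntegrable (hVc.mul (hc1'.norm.pow 2)) _ _
  have i2 : IntervalIntegrable (fun t : ℝ => V κ c A T t * ‖f2 t‖ ^ 2) volume T (2 * T) :=
    Continuous.intervalIntegrable (hVc.mul (hc2'.norm.pow 2)) _ _
  have i3 : IntervalIntegrable (fun t : ℝ => V κ c A T t) volume T (2 * T) :=
    Continuous.intervalIntegrable hVc _ _
  calc ∫ t in T..(2 * T), V κ c A T t * ‖DD X (bb cc g) (t + x)‖ ^ 2
      ≤ ∫ t in T..(2 * T), (3 * (V κ c A T t * ‖f1 t‖ ^ 2) + 3 * (V κ c A T t * ‖f2 t‖ ^ 2) +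
        3 * (24 * Q) ^ 2 * V κ c A T t) :=
        intervalIntegral.integral_mono_on (by linarith) i0
          (((i1.const_mul 3).add (i2.const_mul 3)).add (i3.const_mul _)) fun t _ => hpt t
    _ = 3 * (∫ t in T..(2 * T), V κ c A T t * ‖f1 t‖ ^ 2) +
        3 * (∫ t in T..(2 * T), V κ c A T t * ‖f2 t‖ ^ 2) + 3 * (24 * Q) ^ 2 * IV κ c A T := by
        rw [intervalIntegral.integral_add ((i1.const_mul 3).add (i2.const_mul 3)) (i3.const_mul _),
          intervalIntegral.integral_add (i1.const_mul 3) (i2.const_mul 3),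
          intervalIntegral.integral_const_mul, intervalIntegral.integral_const_mul,
          intervalIntegral.integral_const_mul]
        rfl
    _ ≤ 3 * (2 * IV κ c A T * S) + 3 * (C * IV κ c A T * ((6 * Q) ^ 2 + S)) +
        3 * (24 * Q) ^ 2 * IV κ c A T := by linarith
    _ ≤ (1734 + 111 * C) * IV κ c A T * (S + Q ^ 2) := by
        have h5 : 0 ≤ IV κ c A T * S := mul_nonneg hIV hS0
        have h6 : 0 ≤ IV κ c A T * Q ^ 2 := by positivity
        have h7 : 0 ≤ C * (IV κ c A T * S) := by positivity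
        have h8 : 0 ≤ C * (IV κ c A T * Q ^ 2) := by positivity
        nlinarith

end

end Pool.Agent.Y732.LD
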